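import Pool.Agent.W257.CStm2
import Pool.Agent.W63.SHt

open Polynomial Finset

namespace Pool.Agent.W501.SHt2

open Pool.Agent.W257 Pool.Agent.H322R2 Pool.Agent.W63.SHt

theorem main : Pool.Agent.W257.S_ht2 := by
  intro m g f F F₁ h b hm hg hgd hf hfd hfdeg hh hpn hb hgb hres hF₁ hdvd
  obtain ⟨hF, hFd, hres⟩ := hres
  set N := m.factorial with hN
  set r := F₁.natDegree with hr
  have hrN : r ≤ N := by
    rw [← hFd]
    exact natDegree_le_of_dvd hdvd hF.ne_zero
  have key : ∀ z : ℂ, 1 ≤ ‖z‖ → ∀ j, ‖evf z (F₁.coeff j)‖ ≤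
      (r.choose j * (m * b * h) ^ (r - j)) * ‖z‖ ^ (r - j) := by
    intro z hz j
    obtain ⟨β, hβ⟩ := exists_fin_roots (g.map (Int.castRingHom ℂ)) m (hg.map _)
      (by rw [hg.natDegree_map, hgd])
    obtain ⟨φ, hφ⟩ := exists_fin_roots (f.map (evf z)) m (hf.map _)
      (by rw [hf.natDegree_map, hfd])
    have h1 := hres ℂ z β φ hβ hφ
    have hβb : ∀ i, ‖β i‖ ≤ b := by
      intro i
      apply hgb
      have h2 : (g.map (Int.castRingHom ℂ)).eval (β i) = 0 := by
        rw [hβ, eval_prod]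
        apply Finset.prod_eq_zero (Finset.mem_univ i)
        simp
      rw [eval_map] at h2
      exact h2
    have hφb : ∀ i, ‖φ i‖ ≤ h * ‖z‖ := by
      intro i
      apply root_le m hm f hf hfd hfdeg h hh hpn z hz
      rw [IsRoot.def, hφ, eval_prod]
      apply Finset.prod_eq_zero (Finset.mem_univ i)
      simp
    have hz0 : 0 < ‖z‖ := by linarith
    have h2 := coeff_le_of_roots_le (p := F₁) (f := evf z) (B := m * b * h * ‖z‖) j hF₁
      (IsAlgClosed.splits _) (by
        intro w hw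
        have hw' : w ∈ (F.map (evf z)).roots := by
          rw [mem_roots ((hF₁.map _).ne_zero)] at hw
          rw [mem_roots ((hF.map _).ne_zero)]
          exact hw.dvd (Polynomial.map_dvd _ hdvd)
        rw [h1, mem_roots (monic_prod_of_monic _ _ fun σ _ => monic_X_sub_C _).ne_zero,
          IsRoot.def, eval_prod, Finset.prod_eq_zero_iff] at hw'
        obtain ⟨σ, _, hσ⟩ := hw'
        rw [eval_sub, eval_X, eval_C, sub_eq_zero] at hσ
        rw [hσ]
        refine (norm_sum_le _ _).trans ?_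
        have h3 : ∀ i ∈ (Finset.univ : Finset (Fin m)), ‖β i * φ (σ i)‖ ≤ b * (h * ‖z‖) := by
          intro i _
          rw [norm_mul]
          exact mul_le_mul (hβb i) (hφb _) (norm_nonneg _) (by linarith)
        refine (Finset.sum_le_sum h3).trans (le_of_eq ?_)
        simp
        ring)
    rw [coeff_map, ← hr] at h2
    refine h2.trans (le_of_eq ?_)
    rw [mul_pow]; ring
  have key2 : ∀ j, (F₁.coeff j).natDegree ≤ r - j ∧
      ∀ i, |(((F₁.coeff j).coeff i : ℤ) : ℝ)| ≤ r.choose j * (m * b * h) ^ (r - j) := fun j =>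
    natDegree_le_of_growth _ _ _ fun z hz => key z hz j
  refine ⟨fun j => (key2 j).1, ?_⟩
  have hpos : (0 : ℝ) ≤ m * b * h := by positivity
  have hfin : pn (pn zn) F₁ ≤ (r + 1) * (1 + m * b * h) ^ r := by
    rw [pn_eq_range (pn zn) F₁ (n := r + 1) (by omega)]
    have h1 : ∀ j ∈ range (r + 1), pn zn (F₁.coeff j) ≤
        (r + 1) * ((1 : ℝ) ^ j * (m * b * h) ^ (r - j) * r.choose j) := by
      intro j _
      rw [pn_eq_range zn (F₁.coeff j) (n := r + 1) (by have := (key2 j).1; omega)]
      refine (Finset.sum_le_card_nsmul _ _ _ fun i _ => ((key2 j).2 i)).trans (le_of_eq ?_)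
      rw [Finset.card_range, nsmul_eq_mul]
      push_cast
      ring
    refine (Finset.sum_le_sum h1).trans (le_of_eq ?_)
    rw [← Finset.mul_sum, add_pow]
  refine hfin.trans ?_
  have h2 : (r : ℝ) ≤ N := by exact_mod_cast hrN
  have h3 : (1 + m * b * h) ^ r ≤ (1 + m * b * h) ^ N :=
    pow_le_pow_right₀ (by linarith) hrN
  exact mul_le_mul (by linarith) h3 (by positivity) (by positivity)

end Pool.Agent.W501.SHt2
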